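import Pool.Agent.N993.RK.Stm
import Pool.Agent.Helper455.KZ.Gap

/-!
# Project RK, piece TT: property (T) of a group generated by three copies of `SU₃(5)`
-/

set_option autoImplicit false

open scoped InnerProductSpace

namespace Pool.Agent.N853.RK

open Pool.Agent.Helper455.KZ Pool.Agent.N993.RK

section av

variable {G : Type*} [Group G] {H : Type*} [NormedAddCommGroup H] [InnerProductSpace ℂ H]
  [CompleteSpace H] (π : G →* unitary (H →L[ℂ] H))

theorem act_mul (g h : G) (x : H) :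
    (π (g * h) : H →L[ℂ] H) x = (π g : H →L[ℂ] H) ((π h : H →L[ℂ] H) x) := by
  simp [map_mul]

theorem act_one (x : H) : (π 1 : H →L[ℂ] H) x = x := by simp

theorem act_inner (g : G) (x y : H) :
    ⟪(π g : H →L[ℂ] H) x, (π g : H →L[ℂ] H) y⟫_ℂ = ⟪x, y⟫_ℂ := Unitary.inner_map_map _ _ _

theorem act_inner_left (g : G) (x y : H) :
    ⟪(π g : H →L[ℂ] H) x, y⟫_ℂ = ⟪x, (π g⁻¹ : H →L[ℂ] H) y⟫_ℂ := by
  rw [← act_inner π g⁻¹ ((π g : H →L[ℂ] H) x) y, ← act_mul, inv_mul_cancel, act_one]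

variable [Fintype G]

/-- the average over a finite group -/
noncomputable def av (x : H) : H := ((Fintype.card G : ℂ)⁻¹) • ∑ g : G, (π g : H →L[ℂ] H) x

omit [Group G] in
theorem cardG_ne [Nonempty G] : (Fintype.card G : ℂ) ≠ 0 := by
  have : 0 < Fintype.card G := Fintype.card_pos
  exact_mod_cast this.ne'

theorem fix_av (b : G) (x : H) : (π b : H →L[ℂ] H) (av π x) = av π x := by
  simp only [av, map_smul, map_sum]
  congr 1
  rw [← Equiv.sum_comp (Equiv.mulLeft b) (fun a => (π a : H →L[ℂ] H) x)]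
  refine Finset.sum_congr rfl fun a _ => ?_
  rw [Equiv.coe_mulLeft, act_mul]

theorem av_fix (b : G) (x : H) : av π ((π b : H →L[ℂ] H) x) = av π x := by
  simp only [av]
  congr 1
  rw [← Equiv.sum_comp (Equiv.mulRight b) (fun a => (π a : H →L[ℂ] H) x)]
  refine Finset.sum_congr rfl fun a _ => ?_
  rw [Equiv.coe_mulRight, act_mul]

theorem av_of_fix (x : H) (hx : ∀ a, (π a : H →L[ℂ] H) x = x) : av π x = x := by
  simp only [av, hx, Finset.sum_const, Finset.card_univ]
  rw [← Nat.cast_smul_eq_nsmul ℂ, smul_smul, inv_mul_cancel₀ cardG_ne, one_smul]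

theorem av_proj : Proj (av π) where
  add x y := by simp only [av, map_add, Finset.sum_add_distrib, smul_add]
  sub x y := by simp only [av, map_sub, Finset.sum_sub_distrib, smul_sub]
  sym x y := by
    simp only [av, inner_smul_left, inner_smul_right, sum_inner, inner_sum, map_inv₀, map_natCast]
    congr 1
    rw [← Equiv.sum_comp (Equiv.inv G) (fun a => ⟪x, (π a : H →L[ℂ] H) y⟫_ℂ)]
    refine Finset.sum_congr rfl fun a _ => ?_
    rw [act_inner_left]
    rfl
  idem x := av_of_fix π _ (fun a => fix_av π a x)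

theorem co_av_small (x : H) (δ : ℝ) (hx : ∀ a, ‖(π a : H →L[ℂ] H) x - x‖ ≤ δ) :
    ‖co (av π) x‖ ≤ δ := by
  have hc : (Fintype.card G : ℂ) ≠ 0 := cardG_ne
  have e : co (av π) x = ((Fintype.card G : ℂ)⁻¹) • ∑ a, (x - (π a : H →L[ℂ] H) x) := by
    simp only [co, av, Finset.sum_sub_distrib, Finset.sum_const, Finset.card_univ, smul_sub]
    rw [← Nat.cast_smul_eq_nsmul ℂ, smul_smul, inv_mul_cancel₀ hc, one_smul]
  rw [e, norm_smul]
  have h1 : ‖∑ a, (x - (π a : H →L[ℂ] H) x)‖ ≤ ∑ _a : G, δ := by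
    refine (norm_sum_le _ _).trans (Finset.sum_le_sum fun a _ => ?_)
    rw [norm_sub_rev]; exact hx a
  rw [Finset.sum_const, Finset.card_univ, nsmul_eq_mul] at h1
  have h2 : ‖((Fintype.card G : ℂ)⁻¹)‖ = (Fintype.card G : ℝ)⁻¹ := by
    rw [norm_inv, Complex.norm_natCast]
  rw [h2]
  have hcr : (0 : ℝ) < Fintype.card G := by
    have : 0 < Fintype.card G := Fintype.card_pos
    exact_mod_cast this
  calc (Fintype.card G : ℝ)⁻¹ * ‖∑ a, (x - (π a : H →L[ℂ] H) x)‖ ≤
        (Fintype.card G : ℝ)⁻¹ * ((Fintype.card G : ℝ) * δ) :=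
        mul_le_mul_of_nonneg_left h1 (by positivity)
    _ = δ := by field_simp

theorem sum_eq_zero_of_av (x : H) (h : av π x = 0) : ∑ g : G, (π g : H →L[ℂ] H) x = 0 := by
  rcases smul_eq_zero.mp h with h | h
  · exact absurd h (inv_ne_zero cardG_ne)
  · exact h

end av

section pair

variable {A : Type*} [Group A] [Fintype A] {H : Type*} [NormedAddCommGroup H]
  [InnerProductSpace ℂ H] [CompleteSpace H] (π : A →* unitary (H →L[ℂ] H))
  (L L' : Subgroup A) [Fintype L] [Fintype L']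

/-- the restriction to a subgroup -/
noncomputable abbrev rst (L : Subgroup A) : L →* unitary (H →L[ℂ] H) := π.comp L.subtype

theorem av_av_sub (x : H) : av π (av (rst π L) x) = av π x := by
  have h1 : av (rst π L) x = ((Fintype.card L : ℂ)⁻¹) • ∑ g : L, (π g.1 : H →L[ℂ] H) x := rfl
  have hadd : ∀ (s : Finset L), av π (∑ g ∈ s, (π g.1 : H →L[ℂ] H) x) =
      ∑ g ∈ s, av π x := by
    intro s
    classical
    induction s using Finset.induction_on with
    | empty =>
      rw [Finset.sum_empty, Finset.sum_empty]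
      exact (av_proj π).zero
    | insert a s ha ih =>
      rw [Finset.sum_insert ha, Finset.sum_insert ha, (av_proj π).add, ih, av_fix]
  rw [h1, (av_proj π).smul, hadd, Finset.sum_const, Finset.card_univ,
    ← Nat.cast_smul_eq_nsmul ℂ, smul_smul, inv_mul_cancel₀ cardG_ne, one_smul]

/-- the estimate from the angle -/
theorem small_of_ang (hcard : Fintype.card L' = 120)
    (hang : ∀ x : H, (∀ g ∈ L, (π g : H →L[ℂ] H) x = x) → ∑ g : A, (π g : H →L[ℂ] H) x = 0 →
      ‖∑ g : L', (π (g : A) : H →L[ℂ] H) x‖ ≤ 30 * ‖x‖)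
    (x : H) (hx : ∀ g ∈ L, (π g : H →L[ℂ] H) x = x) (h0 : av π x = 0) :
    ‖av (rst π L') x‖ ≤ (1 / 4) * ‖x‖ := by
  have h1 := hang x hx (sum_eq_zero_of_av π x h0)
  have h2 : av (rst π L') x = ((Fintype.card L' : ℂ)⁻¹) • ∑ g : L', (π (g : A) : H →L[ℂ] H) x :=
    rfl
  rw [h2, norm_smul, norm_inv, Complex.norm_natCast, hcard]
  push_cast
  linarith

theorem pair_of_ang (hcard : Fintype.card L' = 120)
    (hang : ∀ x : H, (∀ g ∈ L, (π g : H →L[ℂ] H) x = x) → ∑ g : A, (π g : H →L[ℂ] H) x = 0 →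
      ‖∑ g : L', (π (g : A) : H →L[ℂ] H) x‖ ≤ 30 * ‖x‖) (v : H) :
    0 ≤ 2 * (⟪co (av (rst π L)) v, co (av (rst π L')) v⟫_ℂ).re +
      (1 / 4) * (‖co (av (rst π L)) v‖ ^ 2 + ‖co (av (rst π L')) v‖ ^ 2) := by
  set v' := v - av π v with hv'
  have hfix : ∀ M : Subgroup A, ∀ [Fintype M], av (rst π M) (av π v) = av π v := by
    intro M _
    exact av_of_fix _ _ fun a => fix_av π a.1 v
  have hco : ∀ M : Subgroup A, ∀ [Fintype M], co (av (rst π M)) v = co (av (rst π M)) v' := by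
    intro M _
    have : v = v' + av π v := by rw [hv']; abel
    simp only [co]
    conv_lhs => rw [this, (av_proj (rst π M)).add, hfix M]
    abel
  have h0 : av π v' = 0 := by
    rw [hv', (av_proj π).sub, (av_proj π).idem, sub_self]
  rw [hco L, hco L']
  have hP := av_proj (rst π L)
  have hP' := av_proj (rst π L')
  refine pair_small hP hP' (1 / 4) (by norm_num) (by norm_num) v' ?_
  have e : ⟪av (rst π L) v', av (rst π L') v'⟫_ℂ =
      ⟪av (rst π L') (av (rst π L) v'), av (rst π L') v'⟫_ℂ := by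
    rw [hP'.sym, hP'.idem]
  rw [e]
  refine (norm_inner_le_norm _ _).trans ?_
  rw [← mul_assoc]
  refine mul_le_mul_of_nonneg_right ?_ (norm_nonneg _)
  refine small_of_ang π L L' hcard hang _ (fun g hg => ?_) ?_
  · exact fix_av (rst π L) ⟨g, hg⟩ v'
  · rw [av_av_sub, h0]

/-- a vector fixed by both subgroups is fixed by everything -/
theorem fixed_of_ang (hcard : Fintype.card L' = 120)
    (hang : ∀ x : H, (∀ g ∈ L, (π g : H →L[ℂ] H) x = x) → ∑ g : A, (π g : H →L[ℂ] H) x = 0 →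
      ‖∑ g : L', (π (g : A) : H →L[ℂ] H) x‖ ≤ 30 * ‖x‖) (w : H)
    (h1 : ∀ g ∈ L, (π g : H →L[ℂ] H) w = w) (h2 : ∀ g ∈ L', (π g : H →L[ℂ] H) w = w) (g : A) :
    (π g : H →L[ℂ] H) w = w := by
  set x := w - av π w with hx
  have hfx : ∀ g, (π g : H →L[ℂ] H) w = w → (π g : H →L[ℂ] H) x = x := by
    intro g hg
    rw [hx, map_sub, hg, fix_av]
  have h0 : av π x = 0 := by
    rw [hx, (av_proj π).sub, (av_proj π).idem, sub_self]
  have h3 := small_of_ang π L L' hcard hang x (fun g hg => hfx g (h1 g hg)) h0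
  have h4 : av (rst π L') x = x := av_of_fix _ _ fun a => hfx a.1 (h2 a.1 a.2)
  rw [h4] at h3
  have h5 : ‖x‖ = 0 := by
    have := norm_nonneg x
    linarith
  have h6 : w = av π w := by
    rw [norm_eq_zero, hx, sub_eq_zero] at h5
    exact h5
  rw [h6]
  exact fix_av π g w

end pair

theorem t_tt (h1 : S_ANG) (h2 : S_CARD) : S_TT := by
  intro k _ _ _ hk Γ _ φ hφ hgen H _ _ _ ρ hinv
  classical
  have : Finite (SL k) := by
    unfold SL Matrix.SpecialLinearGroup
    infer_instance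
  have : Fintype (H0 k) := Fintype.ofFinite _
  have : ∀ i, Fintype (K k i) := fun i => Fintype.ofFinite _
  have hcard : ∀ i, Fintype.card (K k i) = 120 := fun i => by
    rw [← Nat.card_eq_fintype_card]
    exact h2 k hk i
  let R : Fin 3 → (H0 k →* unitary (H →L[ℂ] H)) := fun m => ρ.comp (φ m)
  let Pr : Fin 3 → H → H := fun i => av (rst (R (i + 1)) (K k i))
  have hi1 : ∀ i : Fin 3, i ≠ i + 1 := by decide
  have hPr : ∀ m i, i ≠ m → av (rst (R m) (K k i)) = Pr i := by
    intro m i him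
    have e : rst (R m) (K k i) = rst (R (i + 1)) (K k i) := by
      ext1 g
      show ρ (φ m g.1) = ρ (φ (i + 1) g.1)
      rw [hφ m (i + 1) i him (hi1 i) g.1 g.2]
    show _ = av (rst (R (i + 1)) (K k i))
    rw [e]
  have hang : ∀ m i j, i ≠ j → ∀ x : H, (∀ g ∈ K k i, (R m g : H →L[ℂ] H) x = x) →
      ∑ g : H0 k, (R m g : H →L[ℂ] H) x = 0 →
      ‖∑ g : K k j, (R m (g : H0 k) : H →L[ℂ] H) x‖ ≤ 30 * ‖x‖ := by
    intro m i j hij x hx hs
    exact h1 k hk i j hij H (R m) x hx hs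
  have hthird : ∀ i j : Fin 3, i ≠ j → ∃ m, i ≠ m ∧ j ≠ m := by decide
  let Q : Fin 3 → H → H := fun i => co (Pr i)
  have hQ : ∀ i, Proj (Q i) := fun i => (av_proj (rst (R (i + 1)) (K k i))).co
  have hpair : ∀ i j, i ≠ j → ∀ v, 0 ≤ 2 * (⟪Q i v, Q j v⟫_ℂ).re +
      (1 / 4) * (‖Q i v‖ ^ 2 + ‖Q j v‖ ^ 2) := by
    intro i j hij v
    obtain ⟨m, him, hjm⟩ := hthird i j hij
    have := pair_of_ang (R m) (K k i) (K k j) (hcard j) (hang m i j hij) v
    rw [hPr m i him, hPr m j hjm] at this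
    exact this
  have hDE : ∀ v, (1 / 2 : ℝ) * EE Q v ≤ ‖DD Q v‖ ^ 2 := by
    intro v
    have := DD_lower Q (1 / 4) hpair v
    rw [Fintype.card_fin] at this
    norm_num at this
    linarith
  obtain ⟨v, hv, hsm⟩ := hinv ((Finset.univ : Finset (Fin 3 × H0 k)).image fun q => φ q.1 q.2)
    (thr ((3 : ℕ) : ℝ) (1 / 2)) (thr_pos _ _ (by norm_num) (by norm_num))
  obtain ⟨w, hw, hwi⟩ := exists_invariant (by rw [Fintype.card_fin]; norm_num) Q hQ (1 / 2)
    (by norm_num) (by norm_num) hDE v hv (fun i => by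
      rw [Fintype.card_fin]
      refine co_av_small _ v _ fun a => ?_
      exact (hsm (φ (i + 1) a.1) (Finset.mem_image.mpr ⟨(i + 1, a.1), Finset.mem_univ _, rfl⟩)).le)
  refine ⟨w, hw, ?_⟩
  have hfix : ∀ m i, i ≠ m → ∀ g ∈ K k i, (R m g : H →L[ℂ] H) w = w := by
    intro m i him g hg
    have e1 : w - Pr i w = 0 := hwi i
    rw [sub_eq_zero] at e1
    have e2 := fix_av (rst (R m) (K k i)) ⟨g, hg⟩ w
    rw [hPr m i him, ← e1] at e2
    exact e2
  have htwo : ∀ m : Fin 3, ∃ i j, i ≠ j ∧ i ≠ m ∧ j ≠ m := by decide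
  have hall : ∀ m g, (R m g : H →L[ℂ] H) w = w := by
    intro m g
    obtain ⟨i, j, hij, him, hjm⟩ := htwo m
    exact fixed_of_ang (R m) (K k i) (K k j) (hcard j) (hang m i j hij) w (hfix m i him)
      (hfix m j hjm) g
  let St : Subgroup Γ :=
    { carrier := {g | (ρ g : H →L[ℂ] H) w = w}
      one_mem' := act_one ρ w
      mul_mem' := by
        intro a b ha hb
        show (ρ (a * b) : H →L[ℂ] H) w = w
        have ha' : (ρ a : H →L[ℂ] H) w = w := ha
        have hb' : (ρ b : H →L[ℂ] H) w = w := hb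
        rw [act_mul, hb', ha']
      inv_mem' := by
        intro a ha
        show (ρ a⁻¹ : H →L[ℂ] H) w = w
        have ha' : (ρ a : H →L[ℂ] H) w = w := ha
        have h1 : (ρ a⁻¹ : H →L[ℂ] H) ((ρ a : H →L[ℂ] H) w) = w := by
          rw [← act_mul, inv_mul_cancel, act_one]
        rwa [ha'] at h1 }
  have hle : Subgroup.closure (⋃ m, Set.range (φ m)) ≤ St := by
    rw [Subgroup.closure_le]
    intro x hx
    obtain ⟨m, g, rfl⟩ := Set.mem_iUnion.1 hx
    exact hall m g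
  intro g
  rw [hgen] at hle
  exact hle (Subgroup.mem_top g)

end Pool.Agent.N853.RK
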